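import Pool.Agent.X95T.OC2

/-!
# Conic bundle threefolds `u² - a(x) v² = f(x, y)` with `f` of degree at most eight in `y`

They are unirational, for all nonzero polynomials `a` in `x` and `f` in `x, y` (of any degree in
`x`, of degree at most eight in `y`).
-/

set_option autoImplicit false

open MvPolynomial

namespace Pool.Agent.Results.MP_2095a9_ag.OcticConicBundles

variable {k : Type} [Field k]

/-- The polynomial `a(x) v² + f(x, y)` in the variables `x = X 0`, `y = X 1`, `v = X 2`. -/
noncomputable def rhs (a : Polynomial k) (f : Polynomial (Polynomial k)) :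
    MvPolynomial (Fin 3) k :=
  Polynomial.aeval (X 0) a * X 2 ^ 2 +
    Polynomial.eval₂ (Polynomial.aeval (X 0 : MvPolynomial (Fin 3) k)).toRingHom (X 1) f

/-- The double cover `u² = R` of affine space (`u = X 0`, the other variables are shifted by one) is
unirational: it has a point `P` with coordinates in a field `k(s₁, s₂, s₃)` of rational functions
such that the polynomials which vanish at `P` are exactly the multiples of `u² - R`. -/
def Unirational (R : MvPolynomial (Fin 3) k) : Prop :=
  ∃ P : Fin 4 → FractionRing (MvPolynomial (Fin 3) k), ∀ G : MvPolynomial (Fin 4) k,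
    aeval P G = 0 ↔ (X 0 ^ 2 - rename Fin.succ R) ∣ G

/-- The threefold `u² - a(x) v² = f(x, y)` is unirational. -/
theorem result (k : Type) [Field k] [IsAlgClosed k] [CharZero k] (a : Polynomial k) (ha : a ≠ 0)
    (f : Polynomial (Polynomial k)) (hf : f.natDegree ≤ 8) (hf₀ : f ≠ 0) :
    Unirational (rhs a f) :=
  Pool.Agent.X95T.OC.unir' ha hf hf₀

end Pool.Agent.Results.MP_2095a9_ag.OcticConicBundles
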